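import Pool.Agent.Helper48.KM.Stmts

/-! # Module UNC: maps with finite fibres on cofinite sets have uncountable image -/

set_option autoImplicit false

namespace Pool.Agent.Helper48.KM

theorem st_UNC : ST_UNC := by
  intro S φ hS hfib hc
  have h1 : S ⊆ ⋃ ξ ∈ φ '' S, {x | x ∈ S ∧ φ x = ξ} := by
    intro x hx
    simp only [Set.mem_iUnion]
    exact ⟨φ x, ⟨x, hx, rfl⟩, hx, rfl⟩
  have h2 : (⋃ ξ ∈ φ '' S, {x | x ∈ S ∧ φ x = ξ}).Countable :=
    hc.biUnion (fun ξ _ => (hfib ξ).countable)
  have h3 : S.Countable := h2.mono h1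
  have h4 : (Set.univ : Set ℂ).Countable := by
    rw [← Set.union_compl_self S]
    exact h3.union hS.countable
  exact not_countable_complex h4

end Pool.Agent.Helper48.KM
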